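import Pool.Agent.R34.DP.Stm

/-!
# DP-MADM: directed sup-convolution and the gradient bound
-/

set_option autoImplicit false

open MeasureTheory ProbabilityTheory Set Filter
open scoped NNReal ENNReal Topology

namespace R34.DP

namespace MadmAux

variable {n : ℕ}

theorem bdd {f : (Fin n → ℝ) → ℝ} {B : ℝ} (hB : ∀ x, |f x| ≤ B) (ε : ℝ) (x : Fin n → ℝ) :
    BddAbove {r : ℝ | ∃ b : Fin n → ℝ, 0 ≤ b ∧ ∑ i, b i ^ 2 ≤ ε ^ 2 ∧ r = f (x - b)} := by
  refine ⟨B, ?_⟩
  rintro r ⟨b, _, _, rfl⟩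
  exact (abs_le.1 (hB _)).2

theorem le_M {f : (Fin n → ℝ) → ℝ} {B : ℝ} (hB : ∀ x, |f x| ≤ B) (ε : ℝ) (x b : Fin n → ℝ)
    (hb : 0 ≤ b) (hb2 : ∑ i, b i ^ 2 ≤ ε ^ 2) : f (x - b) ≤ M ε f x :=
  le_csSup (bdd hB ε x) ⟨b, hb, hb2, rfl⟩

theorem self_le_M {f : (Fin n → ℝ) → ℝ} {B : ℝ} (hB : ∀ x, |f x| ≤ B) (ε : ℝ) (x : Fin n → ℝ) :
    f x ≤ M ε f x := by
  have h := le_M hB ε x 0 le_rfl (by simp; positivity)
  rwa [sub_zero] at h

theorem M_le {f : (Fin n → ℝ) → ℝ} (ε : ℝ) (x : Fin n → ℝ) (C : ℝ)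
    (h : ∀ b : Fin n → ℝ, 0 ≤ b → ∑ i, b i ^ 2 ≤ ε ^ 2 → f (x - b) ≤ C) : M ε f x ≤ C := by
  refine csSup_le ⟨f (x - 0), 0, le_rfl, by simp; positivity, rfl⟩ ?_
  rintro r ⟨b, hb, hb2, rfl⟩
  exact h b hb hb2

end MadmAux

open MadmAux

theorem t_MADM : S_MADM := by
  rintro n f ⟨⟨K, hK⟩, B, hB⟩ ε _
  refine ⟨⟨⟨K, ?_⟩, B, ?_⟩, self_le_M hB ε, ?_⟩
  · refine LipschitzWith.of_le_add_mul K fun x y => ?_
    refine M_le ε x _ fun b hb hb2 => ?_
    have h1 := hK.dist_le_mul (x - b) (y - b)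
    rw [dist_sub_right, Real.dist_eq] at h1
    have h2 := le_M hB ε y b hb hb2
    have h3 := (abs_le.1 h1).2
    linarith
  · intro x
    rw [abs_le]
    constructor
    · exact (abs_le.1 (hB x)).1.trans (self_le_M hB ε x)
    · exact M_le ε x _ fun b _ _ => (abs_le.1 (hB _)).2
  · intro a _ ha2 x c hc hca
    have e : x + c - a = x - (a - c) := by abel
    rw [e]
    refine le_M hB ε x _ (sub_nonneg.2 hca) (le_trans (Finset.sum_le_sum fun i _ => ?_) ha2)
    have h1 : 0 ≤ c i := hc i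
    have h2 : c i ≤ a i := hca i
    simp only [Pi.sub_apply]
    nlinarith

theorem t_GRB : S_GRB := by
  intro n g d hg ε q hε hε0 hq
  set D := fderiv ℝ g d with hD
  have hder : HasFDerivAt g D d := hg.hasFDerivAt
  have hc : Tendsto (fun k => ‖(ε k)⁻¹‖) atTop atTop := by
    have h1 : Tendsto ε atTop (𝓝[>] 0) :=
      tendsto_nhdsWithin_iff.2 ⟨hε0, Eventually.of_forall fun k => hε k⟩
    have h2 : Tendsto (fun k => (ε k)⁻¹) atTop atTop := tendsto_inv_nhdsGT_zero.comp h1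
    exact tendsto_norm_atTop_atTop.comp h2
  have hlim : ∀ a : Fin n → ℝ,
      Tendsto (fun k => (ε k)⁻¹ * (g (d + ε k • a) - g d)) atTop (𝓝 (D a)) := by
    intro a
    have h1 := hder.lim a hc
    simp only [inv_inv, smul_eq_mul] at h1
    exact h1
  have hv : ∀ i, 0 ≤ D (Pi.single i 1) := by
    intro i
    refine ge_of_tendsto' (hlim (Pi.single i 1)) fun k => ?_
    have h1 := (hq k (Pi.single i 1) (by
      intro j
      by_cases hj : j = i
      · subst hj
        simp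
      · simp [hj]) (by
      rw [Finset.sum_eq_single i]
      · simp
      · intro j _ hj
        simp [hj]
      · intro hi
        exact absurd (Finset.mem_univ i) hi)).1
    exact mul_nonneg (inv_nonneg.2 (hε k).le) h1
  set s : ℝ := ∑ i, D (Pi.single i 1) ^ 2 with hs
  have hs0 : 0 ≤ s := Finset.sum_nonneg fun i _ => sq_nonneg _
  rcases hs0.eq_or_lt with h0 | hpos
  · rw [← h0, Real.sqrt_zero, ENNReal.ofReal_zero]
    exact bot_le
  · have hr : 0 < Real.sqrt s := Real.sqrt_pos.2 hpos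
    set a : Fin n → ℝ := fun i => D (Pi.single i 1) / Real.sqrt s with ha
    have ha0 : 0 ≤ a := fun i => div_nonneg (hv i) hr.le
    have ha1 : ∑ i, a i ^ 2 ≤ 1 := by
      simp only [ha, div_pow]
      rw [← Finset.sum_div, Real.sq_sqrt hs0, ← hs, div_self hpos.ne']
    have hDa : D a = Real.sqrt s := by
      have e1 : a = ∑ i, a i • (Pi.single i 1 : Fin n → ℝ) := by
        funext j
        rw [Finset.sum_apply, Finset.sum_eq_single j]
        · simp
        · intro i _ hij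
          simp [hij.symm]
        · intro hj
          exact absurd (Finset.mem_univ j) hj
      rw [e1, map_sum]
      simp only [map_smul, smul_eq_mul, ha]
      have e2 : ∀ i ∈ Finset.univ, D (Pi.single i 1) / Real.sqrt s * D (Pi.single i 1) =
          D (Pi.single i 1) ^ 2 / Real.sqrt s := fun i _ => by ring
      rw [Finset.sum_congr rfl e2, ← Finset.sum_div, ← hs, Real.div_sqrt]
    have h1 := hlim a
    rw [hDa] at h1
    have h2 : Tendsto (fun k => ENNReal.ofReal ((ε k)⁻¹ * (g (d + ε k • a) - g d))) atTop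
        (𝓝 (ENNReal.ofReal (Real.sqrt s))) := ENNReal.tendsto_ofReal h1
    rw [← h2.liminf_eq]
    refine liminf_le_liminf (Eventually.of_forall fun k => ENNReal.ofReal_le_ofReal ?_)
    have h3 := (hq k a ha0 ha1).2
    rw [inv_mul_le_iff₀ (hε k)]
    exact h3

end R34.DP
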